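import Pool.Agent.Lib.MP_2a6af3_al.Z.Rank2
import Pool.Agent.Lib.MP_acafa7_al.MS.Final

/-! Solvable subgroups which are not virtually cyclic are undistorted (MP_2a6af3_al, helper40). -/

namespace MSG.FS

open Classical

/-- `g` is a product of at most `n` elements of `T ∪ T⁻¹` -/
def Wd {H : Type} [Group H] (T : Finset H) (n : ℕ) (g : H) : Prop :=
  ∃ l : List H, (∀ t ∈ l, t ∈ T ∨ t⁻¹ ∈ T) ∧ l.prod = g ∧ l.length ≤ n

theorem Wd.mul {H : Type} [Group H] {T : Finset H} {m n : ℕ} {g h : H} (hg : Wd T m g)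
    (hh : Wd T n h) : Wd T (m + n) (g * h) := by
  obtain ⟨l, h1, h2, h3⟩ := hg
  obtain ⟨l', h1', h2', h3'⟩ := hh
  refine ⟨l ++ l', ?_, by rw [List.prod_append, h2, h2'], by rw [List.length_append]; omega⟩
  intro t ht
  rcases List.mem_append.1 ht with ht | ht
  · exact h1 t ht
  · exact h1' t ht

theorem Wd.one {H : Type} [Group H] {T : Finset H} : Wd T 0 1 :=
  ⟨[], by simp, by simp, by simp⟩

theorem Wd.of_mem {H : Type} [Group H] {T : Finset H} {t : H} (ht : t ∈ T) : Wd T 1 t :=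
  ⟨[t], by simp [ht], by simp, by simp⟩

theorem Wd.of_inv_mem {H : Type} [Group H] {T : Finset H} {t : H} (ht : t⁻¹ ∈ T) : Wd T 1 t :=
  ⟨[t], by simp [ht], by simp, by simp⟩

theorem Wd.pow {H : Type} [Group H] {T : Finset H} {g : H} (hg : Wd T 1 g) (n : ℕ) :
    Wd T n (g ^ n) := by
  induction n with
  | zero => rw [pow_zero]; exact Wd.one
  | succ n ih => rw [pow_succ]; exact ih.mul hg

theorem Wd.zpow {H : Type} [Group H] {T : Finset H} {g : H} (hg : g ∈ T) (n : ℤ) :
    Wd T n.natAbs (g ^ n) := by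
  rcases Int.eq_nat_or_neg n with ⟨m, rfl | rfl⟩
  · rw [zpow_natCast, Int.natAbs_natCast]
    exact (Wd.of_mem hg).pow m
  · rw [zpow_neg, zpow_natCast, ← inv_pow, Int.natAbs_neg, Int.natAbs_natCast]
    refine (Wd.of_inv_mem ?_).pow m
    rwa [inv_inv]

theorem Wd.mono {H : Type} [Group H] {T : Finset H} {m n : ℕ} {g : H} (hg : Wd T m g)
    (h : m ≤ n) : Wd T n g := by
  obtain ⟨l, h1, h2, h3⟩ := hg
  exact ⟨l, h1, h2, h3.trans h⟩

/-- the length of a word bounds the displacement -/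
theorem disp_le {V Γ : Type} [Group Γ] [MulAction Γ V] {X : Cx V} (hMS : X.IsMS)
    (hG : X.IsGeom Γ) (x : V) (S : Finset Γ) :
    ∃ D : ℕ, ∀ l : List Γ, (∀ s ∈ l, s ∈ S ∨ s⁻¹ ∈ S) → X.G.dist x (l.prod • x) ≤ D * l.length := by
  have hd := F75.dist_smul hG hMS.conn
  have dinv : ∀ g : Γ, X.G.dist x (g⁻¹ • x) = X.G.dist x (g • x) := by
    intro g
    have h1 := hd g x (g⁻¹ • x)
    rw [smul_inv_smul] at h1
    rw [← h1, SimpleGraph.dist_comm]
  refine ⟨S.sup (fun s => X.G.dist x (s • x)), ?_⟩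
  intro l
  induction l with
  | nil => intro _; simp
  | cons s l ih =>
    intro h
    have ih' := ih (fun t ht => h t (List.mem_cons_of_mem _ ht))
    have hs : X.G.dist x (s • x) ≤ S.sup (fun s => X.G.dist x (s • x)) := by
      rcases h s (by simp) with hs | hs
      · exact Finset.le_sup (f := fun s => X.G.dist x (s • x)) hs
      · rw [← dinv s]
        exact Finset.le_sup (f := fun s => X.G.dist x (s • x)) hs
    rw [List.prod_cons, List.length_cons, mul_smul]
    have h1 := hMS.conn.dist_triangle (u := x) (v := s • x) (w := s • (l.prod • x))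
    rw [hd] at h1
    calc _ ≤ _ := h1
      _ ≤ S.sup (fun s => X.G.dist x (s • x)) + S.sup (fun s => X.G.dist x (s • x)) * l.length :=
          Nat.add_le_add hs ih'
      _ = _ := by ring

/-- an overgroup of finite index of a `ℤ²`-subgroup is undistorted -/
theorem und_of_rank2 {Γ : Type} [Group Γ] (hΓ : IsMSGroup Γ) (H A : Subgroup Γ) (hAH : A ≤ H)
    (hi : A.relIndex H ≠ 0) (he : Nonempty (A ≃* Multiplicative (Fin 2 → ℤ))) :
    ∃ T : Finset H, Subgroup.closure (T : Set H) = ⊤ ∧ ∀ S : Finset Γ, ∃ c : ℕ,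
      ∀ (l : List Γ) (g : H), (∀ s ∈ l, s ∈ S ∨ s⁻¹ ∈ S) → l.prod = (g : Γ) →
        Wd T (c * l.length) g := by
  obtain ⟨V, X, _, hMS, hG⟩ := hΓ
  obtain ⟨e⟩ := he
  let u : Multiplicative (Fin 2 → ℤ) := Multiplicative.ofAdd ![1, 0]
  let v : Multiplicative (Fin 2 → ℤ) := Multiplicative.ofAdd ![0, 1]
  have huv : ∀ i j : ℤ, u ^ i * v ^ j = Multiplicative.ofAdd ![i, j] := by
    intro i j
    apply Multiplicative.toAdd.injective
    funext k
    fin_cases k <;> simp [u, v]
  set a : Γ := ((e.symm u : A) : Γ) with ha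
  set b : Γ := ((e.symm v : A) : Γ) with hb
  have hab : ∀ i j : ℤ, a ^ i * b ^ j = ((e.symm (Multiplicative.ofAdd ![i, j]) : A) : Γ) := by
    intro i j
    rw [← huv, map_mul, map_zpow, map_zpow, Subgroup.coe_mul, Subgroup.coe_zpow,
      Subgroup.coe_zpow]
  have hcomm : a * b = b * a := by
    have h1 : (e.symm u : A) * e.symm v = e.symm v * e.symm u := by
      apply e.injective
      simp only [map_mul, MulEquiv.apply_symm_apply]
      exact mul_comm u v
    exact congrArg (fun z : A => (z : Γ)) h1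
  have hind : ∀ i j : ℤ, a ^ i * b ^ j = 1 → i = 0 ∧ j = 0 := by
    intro i j h
    rw [hab] at h
    have h1 : (e.symm (Multiplicative.ofAdd ![i, j]) : A) = 1 := Subtype.ext h
    rw [map_eq_one_iff _ e.symm.injective] at h1
    have h2 : (![i, j] : Fin 2 → ℤ) = 0 := Multiplicative.ofAdd.injective h1
    exact ⟨by simpa using congrFun h2 0, by simpa using congrFun h2 1⟩
  have hall : ∀ x ∈ A, ∃ i j : ℤ, x = a ^ i * b ^ j := by
    intro x hx
    refine ⟨Multiplicative.toAdd (e ⟨x, hx⟩) 0, Multiplicative.toAdd (e ⟨x, hx⟩) 1, ?_⟩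
    rw [hab]
    have h1 : (⟨x, hx⟩ : A) = e.symm (Multiplicative.ofAdd
        ![Multiplicative.toAdd (e ⟨x, hx⟩) 0, Multiplicative.toAdd (e ⟨x, hx⟩) 1]) := by
      rw [MulEquiv.eq_symm_apply]
      apply Multiplicative.toAdd.injective
      funext k
      fin_cases k <;> simp
    rw [← h1]
  have haH : a ∈ H := hAH (e.symm u : A).2
  have hbH : b ∈ H := hAH (e.symm v : A).2
  -- the coset representatives
  have hfin : Finite (H ⧸ A.subgroupOf H) := by
    apply Nat.finite_of_card_ne_zero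
    exact hi
  obtain ⟨f, hf⟩ : ∃ f : (H ⧸ A.subgroupOf H) → H, f = fun q => Quotient.out q := ⟨_, rfl⟩
  have hfr : (Set.range f).Finite := Set.finite_range f
  obtain ⟨T, hT⟩ : ∃ T : Finset H, T = {⟨a, haH⟩, ⟨b, hbH⟩} ∪ hfr.toFinset := ⟨_, rfl⟩
  have aT : (⟨a, haH⟩ : H) ∈ T := by rw [hT]; simp
  have bT : (⟨b, hbH⟩ : H) ∈ T := by rw [hT]; simp
  have fT : ∀ q, f q ∈ T := by
    intro q
    rw [hT, Finset.mem_union]
    right
    simp
  have dec : ∀ g : H, ∃ q, ∃ i j : ℤ, g = f q * (⟨a, haH⟩ ^ i * ⟨b, hbH⟩ ^ j) := by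
    intro g
    obtain ⟨q, hq⟩ : ∃ q : H ⧸ A.subgroupOf H, q = QuotientGroup.mk g := ⟨_, rfl⟩
    have h2 : (f q)⁻¹ * g ∈ A.subgroupOf H := by
      have := QuotientGroup.out_eq' (QuotientGroup.mk (s := A.subgroupOf H) g)
      rw [QuotientGroup.eq] at this
      rw [hf, hq]
      exact this
    obtain ⟨i, j, hij⟩ := hall _ (Subgroup.mem_subgroupOf.1 h2)
    refine ⟨q, i, j, ?_⟩
    have h3 : (f q)⁻¹ * g = ⟨a, haH⟩ ^ i * ⟨b, hbH⟩ ^ j := by
      apply Subtype.ext
      rw [hij]
      rfl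
    rw [← h3, mul_inv_cancel_left]
  refine ⟨T, ?_, ?_⟩
  · rw [eq_top_iff]
    intro g _
    obtain ⟨q, i, j, h⟩ := dec g
    rw [h]
    exact mul_mem (Subgroup.subset_closure (fT q)) (mul_mem
      (zpow_mem (Subgroup.subset_closure aT) _) (zpow_mem (Subgroup.subset_closure bT) _))
  · intro S
    haveI : Nonempty V := hMS.conn.nonempty
    obtain ⟨x⟩ := this
    obtain ⟨D, hD⟩ := disp_le hMS hG x S
    obtain ⟨K, hK⟩ := rank2 hMS hG hcomm hind x
    obtain ⟨D', hD'⟩ : ∃ D' : ℕ, ∀ q, X.G.dist x (((f q : H) : Γ) • x) ≤ D' := by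
      refine ⟨hfr.toFinset.sup (fun h : H => X.G.dist x ((h : Γ) • x)), fun q => ?_⟩
      exact Finset.le_sup (f := fun h : H => X.G.dist x ((h : Γ) • x))
        (hfr.mem_toFinset.2 ⟨q, rfl⟩)
    refine ⟨1 + 2 * K * D' + 2 * K * D, ?_⟩
    intro l g hl hg
    rcases Nat.eq_zero_or_pos l.length with h0 | h0
    · have hl0 : l = [] := List.length_eq_zero_iff.1 h0
      rw [hl0, List.prod_nil] at hg
      have : g = 1 := Subtype.ext hg.symm
      rw [this]
      exact Wd.one.mono (Nat.zero_le _)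
    · obtain ⟨q, i, j, h⟩ := dec g
      have w1 : Wd T (1 + (i.natAbs + j.natAbs)) g := by
        rw [h]
        exact (Wd.of_mem (fT q)).mul ((Wd.zpow aT i).mul (Wd.zpow bT j))
      refine w1.mono ?_
      have hd := F75.dist_smul hG hMS.conn
      have e1 : (g : Γ) = (f q : Γ) * (a ^ i * b ^ j) := by
        rw [h]
        rfl
      have d1 : X.G.dist x ((a ^ i * b ^ j) • x) ≤ D' + D * l.length := by
        have h1 := hd (f q : Γ) x ((a ^ i * b ^ j) • x)
        rw [← mul_smul, ← e1] at h1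
        rw [← h1]
        have h2 := hMS.conn.dist_triangle (u := (f q : Γ) • x) (v := x) (w := (g : Γ) • x)
        have h3 := hD l hl
        rw [hg] at h3
        have h4 := hD' q
        rw [SimpleGraph.dist_comm] at h4
        omega
      obtain ⟨k1, k2⟩ := hK i j
      have m1 : i.natAbs ≤ K * (D' + D * l.length) := by
        have : (i.natAbs : ℤ) ≤ K * (D' + D * l.length) := by
          rw [Int.natCast_natAbs]
          refine k1.trans ?_
          have : (X.G.dist x ((a ^ i * b ^ j) • x) : ℤ) ≤ D' + D * l.length := by exact_mod_cast d1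
          exact mul_le_mul_of_nonneg_left this (by positivity)
        exact_mod_cast this
      have m2 : j.natAbs ≤ K * (D' + D * l.length) := by
        have : (j.natAbs : ℤ) ≤ K * (D' + D * l.length) := by
          rw [Int.natCast_natAbs]
          refine k2.trans ?_
          have : (X.G.dist x ((a ^ i * b ^ j) • x) : ℤ) ≤ D' + D * l.length := by exact_mod_cast d1
          exact mul_le_mul_of_nonneg_left this (by positivity)
        exact_mod_cast this
      have m3 : 1 ≤ l.length := h0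
      have m4 : 1 + 2 * K * D' ≤ (1 + 2 * K * D') * l.length := Nat.le_mul_of_pos_right _ h0
      calc 1 + (i.natAbs + j.natAbs) ≤ 1 + 2 * (K * (D' + D * l.length)) := by omega
        _ = 1 + 2 * K * D' + 2 * K * D * l.length := by ring
        _ ≤ (1 + 2 * K * D') * l.length + 2 * K * D * l.length := Nat.add_le_add_right m4 _
        _ = _ := by ring

/-- Solvable subgroups which are not virtually cyclic are undistorted. -/
theorem und_solvable (Γ : Type) [Group Γ] (hΓ : IsMSGroup Γ) (H : Subgroup Γ)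
    (hs : Group.IsSolvable H) (hc : ∀ z : H, (Subgroup.zpowers z).index = 0) :
    ∃ T : Finset H, Subgroup.closure (T : Set H) = ⊤ ∧ ∀ S : Finset Γ, ∃ c : ℕ,
      ∀ (l : List Γ) (g : H), (∀ s ∈ l, s ∈ S ∨ s⁻¹ ∈ S) → l.prod = (g : Γ) →
        Wd T (c * l.length) g := by
  obtain ⟨r, hr, A, hAH, hi, he⟩ := final_all Γ hΓ H hs
  have key : ∀ z ∈ A, ¬ ∀ y ∈ A, y ∈ Subgroup.zpowers z := by
    intro z hz hall
    have h1 : A.subgroupOf H ≤ Subgroup.zpowers (⟨z, hAH hz⟩ : H) := by
      intro y hy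
      obtain ⟨k, hk⟩ := Subgroup.mem_zpowers_iff.1 (hall _ (Subgroup.mem_subgroupOf.1 hy))
      refine Subgroup.mem_zpowers_iff.2 ⟨k, Subtype.ext ?_⟩
      rw [← hk]
      rfl
    have h2 := Subgroup.index_dvd_of_le h1
    rw [hc, zero_dvd_iff] at h2
    exact hi h2
  interval_cases r
  · obtain ⟨e⟩ := he
    refine absurd ?_ (key 1 (one_mem _))
    intro y hy
    have h1 : (⟨y, hy⟩ : A) = 1 := e.injective (Subsingleton.elim _ _)
    have h2 : y = 1 := congrArg (fun z : A => (z : Γ)) h1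
    rw [h2]
    exact one_mem _
  · obtain ⟨e⟩ := he
    refine absurd ?_ (key ((e.symm (Multiplicative.ofAdd fun _ => 1) : A) : Γ) (Subtype.coe_prop _))
    intro y hy
    refine Subgroup.mem_zpowers_iff.2 ⟨Multiplicative.toAdd (e ⟨y, hy⟩) 0, ?_⟩
    have h1 : (⟨y, hy⟩ : A) = (e.symm (Multiplicative.ofAdd fun _ => 1)) ^
        (Multiplicative.toAdd (e ⟨y, hy⟩) 0) := by
      rw [← map_zpow, MulEquiv.eq_symm_apply]
      apply Multiplicative.toAdd.injective
      funext k
      fin_cases k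
      simp
    have h2 := congrArg (fun z : A => (z : Γ)) h1
    simp only [Subgroup.coe_zpow] at h2
    exact h2.symm
  · exact und_of_rank2 hΓ H A hAH hi he

end MSG.FS
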