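import Pool.Agent.Lib.MP_2a6af3_al.Z.WallThm

/-! Heights on the orbit of a finite set under `ℤ²` (MP_2a6af3_al, helper40). -/

namespace MSG.FS

open Classical

variable {V : Type} {Γ : Type} [Group Γ] [MulAction Γ V]

theorem comm_pow_pow {a b : Γ} (hab : a * b = b * a) (i j k l : ℤ) :
    (a ^ i * b ^ j) * (a ^ k * b ^ l) = a ^ (i + k) * b ^ (j + l) := by
  have h1 : Commute a b := hab
  have h2 : b ^ j * a ^ k = a ^ k * b ^ j := (h1.symm.zpow_zpow j k).eq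
  rw [zpow_add, zpow_add]
  calc a ^ i * b ^ j * (a ^ k * b ^ l) = a ^ i * (b ^ j * a ^ k) * b ^ l := by group
    _ = a ^ i * (a ^ k * b ^ j) * b ^ l := by rw [h2]
    _ = _ := by group

theorem free2 {X : Cx V} (hG : X.IsGeom Γ) {a b : Γ} (hab : a * b = b * a)
    (hfree : ∀ i j : ℤ, a ^ i * b ^ j = 1 → i = 0 ∧ j = 0) {i j : ℤ} {v : V}
    (h : (a ^ i * b ^ j) • v = v) : i = 0 ∧ j = 0 := by
  obtain ⟨g, hg⟩ : ∃ g : Γ, g = a ^ i * b ^ j := ⟨_, rfl⟩
  rw [← hg] at h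
  have hpow : ∀ n : ℕ, g ^ n • v = v := by
    intro n
    induction n with
    | zero => simp
    | succ n ih => rw [pow_succ', mul_smul, ih, h]
  have hfin := hG.stab v
  have : ¬ Function.Injective (fun n : ℕ => g ^ n) := by
    intro hinj
    have h1 := Set.infinite_range_of_injective hinj
    refine h1 (hfin.subset ?_)
    rintro _ ⟨n, rfl⟩
    exact hpow n
  rw [Function.Injective] at this
  push Not at this
  obtain ⟨m, n, hmn, hne⟩ := this
  have h1 : g ^ ((m : ℤ) - n) = 1 := by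
    rw [zpow_sub, zpow_natCast, zpow_natCast, hmn, mul_inv_cancel]
  have hc : Commute (a ^ i) (b ^ j) := (show Commute a b from hab).zpow_zpow i j
  rw [hg, hc.mul_zpow, ← zpow_mul, ← zpow_mul] at h1
  obtain ⟨h2, h3⟩ := hfree _ _ h1
  have h4 : (m : ℤ) - n ≠ 0 := by omega
  exact ⟨(mul_eq_zero.1 h2).resolve_right h4, (mul_eq_zero.1 h3).resolve_right h4⟩

theorem orb2_smul {a b : Γ} (hab : a * b = b * a) (S : Set V) (i j : ℤ) (v : V) :
    (a ^ i * b ^ j) • v ∈ orb2 a b S ↔ v ∈ orb2 a b S := by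
  have key : ∀ (i j : ℤ) (v : V), v ∈ orb2 a b S → (a ^ i * b ^ j) • v ∈ orb2 a b S := by
    rintro i j v ⟨k, l, x, hx, rfl⟩
    exact ⟨i + k, j + l, x, hx, by rw [smul_smul, comm_pow_pow hab]⟩
  refine ⟨fun h => ?_, key i j v⟩
  have := key (-i) (-j) _ h
  rw [smul_smul, comm_pow_pow hab, neg_add_cancel, neg_add_cancel, zpow_zero, zpow_zero, one_mul,
    one_smul] at this
  exact this

theorem ht2 {X : Cx V} (hG : X.IsGeom Γ) {a b : Γ} (hab : a * b = b * a)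
    (hfree : ∀ i j : ℤ, a ^ i * b ^ j = 1 → i = 0 ∧ j = 0) {S : Set V} (hS : S.Finite) :
    ∃ (h₁ h₂ : V → ℤ) (H : ℤ), 0 ≤ H ∧
      (∀ v ∈ orb2 a b S, ∀ i j : ℤ, h₁ ((a ^ i * b ^ j) • v) = h₁ v + i ∧
        h₂ ((a ^ i * b ^ j) • v) = h₂ v + j) ∧
      (∀ x ∈ orb2 a b S, ∀ y ∈ orb2 a b S, Nr X.G x y → |h₁ x - h₁ y| ≤ H ∧ |h₂ x - h₂ y| ≤ H) := by
  have hadj := hG.adj
  -- representatives
  obtain ⟨T, hT⟩ : ∃ T : V → Set V, T = fun v => {s | s ∈ S ∧ ∃ i j : ℤ, v = (a ^ i * b ^ j) • s} :=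
    ⟨_, rfl⟩
  have Tne : ∀ v ∈ orb2 a b S, (T v).Nonempty := by
    rintro v ⟨i, j, s, hs, h⟩
    rw [hT]
    exact ⟨s, hs, i, j, h⟩
  have Tinv : ∀ (i j : ℤ) v, T ((a ^ i * b ^ j) • v) = T v := by
    have key : ∀ (i j : ℤ) v, T v ⊆ T ((a ^ i * b ^ j) • v) := by
      intro i j v s
      rw [hT]
      rintro ⟨hs, k, l, rfl⟩
      exact ⟨hs, i + k, j + l, by rw [smul_smul, comm_pow_pow hab]⟩
    intro i j v
    refine Set.Subset.antisymm ?_ (key i j v)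
    have := key (-i) (-j) ((a ^ i * b ^ j) • v)
    rw [smul_smul, comm_pow_pow hab, neg_add_cancel, neg_add_cancel, zpow_zero, zpow_zero, one_mul,
      one_smul] at this
    exact this
  obtain ⟨r, hr⟩ : ∃ r : V → V, r = fun v => if h : (T v).Nonempty then h.some else v := ⟨_, rfl⟩
  have rinv : ∀ (i j : ℤ), ∀ v ∈ orb2 a b S, r ((a ^ i * b ^ j) • v) = r v := by
    intro i j v hv
    rw [hr]
    simp only
    have h1 := Tne v hv
    have h2 : (T ((a ^ i * b ^ j) • v)).Nonempty := by rw [Tinv]; exact h1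
    rw [dif_pos h1, dif_pos h2]
    congr 1
    exact Tinv i j v
  have rex : ∀ v ∈ orb2 a b S, ∃ q : ℤ × ℤ, v = (a ^ q.1 * b ^ q.2) • r v := by
    intro v hv
    have h1 := Tne v hv
    have h2 := h1.some_mem
    have h3 : r v = h1.some := by
      rw [hr]
      exact dif_pos h1
    rw [← h3, hT] at h2
    obtain ⟨-, i, j, h⟩ := h2
    exact ⟨(i, j), h⟩
  obtain ⟨q, hq⟩ : ∃ q : V → ℤ × ℤ, ∀ v ∈ orb2 a b S, v = (a ^ (q v).1 * b ^ (q v).2) • r v := by
    refine ⟨fun v => if h : v ∈ orb2 a b S then (rex v h).choose else (0, 0), ?_⟩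
    intro v hv
    simp only [dif_pos hv]
    exact (rex v hv).choose_spec
  have eqv : ∀ v ∈ orb2 a b S, ∀ i j : ℤ, (q ((a ^ i * b ^ j) • v)).1 = (q v).1 + i ∧
      (q ((a ^ i * b ^ j) • v)).2 = (q v).2 + j := by
    intro v hv i j
    have h1 := hq _ ((orb2_smul hab S i j v).2 hv)
    rw [rinv i j v hv] at h1
    have h2 : (a ^ i * b ^ j) • v = (a ^ (i + (q v).1) * b ^ (j + (q v).2)) • r v := by
      conv_lhs => rw [hq v hv]
      rw [smul_smul, comm_pow_pow hab]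
    rw [h2] at h1
    have h3 := congrArg (fun u => (a ^ (-(i + (q v).1)) * b ^ (-(j + (q v).2))) • u) h1
    rw [smul_smul, comm_pow_pow hab, neg_add_cancel, neg_add_cancel, zpow_zero, zpow_zero, one_mul,
      one_smul, smul_smul, comm_pow_pow hab] at h3
    rw [← h2] at h3
    obtain ⟨h4, h5⟩ := free2 hG hab hfree h3.symm
    constructor <;> omega
  -- the bound
  have hfin := nr_finite hG.locfin hS
  have himg : ((fun p : V × V => max |(q p.1).1 - (q p.2).1| |(q p.1).2 - (q p.2).2|) ''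
      (S ×ˢ {v | ∃ c ∈ S, Nr X.G c v})).Finite := (hS.prod hfin).image _
  obtain ⟨H, hH⟩ := himg.bddAbove
  refine ⟨fun v => (q v).1, fun v => (q v).2, max H 0, le_max_right _ _, eqv, ?_⟩
  rintro x ⟨i, j, s, hs, rfl⟩ y hy hxy
  rw [nr_smul hadj] at hxy
  have hsS : s ∈ orb2 a b S := ⟨0, 0, s, hs, by simp⟩
  obtain ⟨y', hy'⟩ : ∃ y', y' = (a ^ i * b ^ j)⁻¹ • y := ⟨_, rfl⟩
  have hyy : y = (a ^ i * b ^ j) • y' := by rw [hy', smul_inv_smul]
  rw [← hy'] at hxy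
  rw [hyy] at hy ⊢
  have hy'L := (orb2_smul hab S i j y').1 hy
  have h1 := eqv s hsS i j
  have h2 := eqv y' hy'L i j
  have h3 : max |(q s).1 - (q y').1| |(q s).2 - (q y').2| ≤ H :=
    hH ⟨(s, y'), ⟨hs, s, hs, hxy⟩, rfl⟩
  simp only
  rw [h1.1, h1.2, h2.1, h2.2]
  have e1 : (q s).1 + i - ((q y').1 + i) = (q s).1 - (q y').1 := by ring
  have e2 : (q s).2 + j - ((q y').2 + j) = (q s).2 - (q y').2 := by ring
  rw [e1, e2]
  exact ⟨(le_max_left _ _).trans (h3.trans (le_max_left _ _)),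
    (le_max_right _ _).trans (h3.trans (le_max_left _ _))⟩

end MSG.FS
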