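import Pool.Agent.Lib.MP_2a6af3_al.Z.Walk

/-! Weights of homotopies for a coboundary on `L` which vanishes near `Q` (MP_2a6af3_al, helper40). -/

namespace MSG.FS

open Classical
open MSG.H25.Gr (Ho ho_refl ho_trans ho_congr ho_symm ho_mono ho_isW ho_reverse ho_cancel ho_cat
  ho_of_loop isW_cat isW_reverse isW_single isW_ne isW_cons cat_eq cat_assoc cat_last cat_single
  cat_reverse cat_map mem_cat hom_zero)
open MSG.H84 (sumE_cat sumE_reverse sumE_congr sumE_zero hom_catL hom_catR hom_inv)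

variable {V : Type} {Γ : Type} [Group Γ] [MulAction Γ V] {G : SimpleGraph V}

/-- the coboundary of `η` on `L`, zero outside -/
noncomputable def om (L : Set V) (η : V → V → ZMod 2) (x y z : V) : ZMod 2 :=
  if x ∈ L ∧ y ∈ L ∧ z ∈ L then η x y + η y z + η x z else 0

/-- the coboundary of `η` vanishes on the triangles of `L` which meet the neighbourhood of `Q` -/
def Far (G : SimpleGraph V) (L Q : Set V) (η : V → V → ZMod 2) : Prop :=
  ∀ c ∈ Q, ∀ x ∈ L, ∀ y ∈ L, ∀ z ∈ L, G.Adj x y → G.Adj y z → G.Adj x z → Nr G c x →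
    η x y + η y z + η x z = 0

theorem two_z : (2 : ZMod 2) = 0 := rfl

theorem om_sym12 {L : Set V} {η : V → V → ZMod 2} (hη : ∀ x y, η x y = η y x) (x y z : V) :
    om L η y x z = om L η x y z := by
  unfold om
  by_cases h : x ∈ L ∧ y ∈ L ∧ z ∈ L
  · rw [if_pos h, if_pos ⟨h.2.1, h.1, h.2.2⟩, hη y x]
    ring
  · rw [if_neg h, if_neg (fun h' => h ⟨h'.2.1, h'.1, h'.2.2⟩)]

theorem om_sym23 {L : Set V} {η : V → V → ZMod 2} (hη : ∀ x y, η x y = η y x) (x y z : V) :
    om L η x z y = om L η x y z := by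
  unfold om
  by_cases h : x ∈ L ∧ y ∈ L ∧ z ∈ L
  · rw [if_pos h, if_pos ⟨h.1, h.2.2, h.2.1⟩, hη z y]
    ring
  · rw [if_neg h, if_neg (fun h' => h ⟨h'.1, h'.2.2, h'.2.1⟩)]

theorem om_out {L : Set V} {η : V → V → ZMod 2} {x y z : V} (h : ¬ (x ∈ L ∧ y ∈ L ∧ z ∈ L)) :
    om L η x y z = 0 := if_neg h

theorem om_in {L : Set V} {η : V → V → ZMod 2} {x y z : V} (hx : x ∈ L) (hy : y ∈ L)
    (hz : z ∈ L) : om L η x y z = η x y + η y z + η x z := if_pos ⟨hx, hy, hz⟩

theorem cocyc_om {L Q : Set V} {η : V → V → ZMod 2} (hη : ∀ x y, η x y = η y x)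
    (far : Far G L Q η) : Cocyc G (L ∪ Q) (om L η) := by
  refine ⟨om_sym12 hη, om_sym23 hη, ?_⟩
  have outL : ∀ c ∈ L ∪ Q, c ∉ L → ∀ p q r, G.Adj c p → G.Adj p q → G.Adj q r → G.Adj p r →
      om L η p q r = 0 := by
    intro c hc hcL p q r hcp hpq hqr hpr
    by_cases h : p ∈ L ∧ q ∈ L ∧ r ∈ L
    · rw [om_in h.1 h.2.1 h.2.2]
      exact far c (hc.resolve_left hcL) p h.1 q h.2.1 r h.2.2 hpq hqr hpr (Or.inr hcp)
    · exact om_out h
  intro x y z w hx hy hz hw hxy hxz hxw hyz hyw hzw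
  by_cases lx : x ∈ L
  · by_cases ly : y ∈ L
    · by_cases lz : z ∈ L
      · by_cases lw : w ∈ L
        · rw [om_in lx ly lz, om_in lx ly lw, om_in lx lz lw, om_in ly lz lw]
          linear_combination (η x y + η y z + η x z + η y w + η x w + η z w) * two_z
        · rw [om_out (fun h => lw h.2.2), om_out (fun h => lw h.2.2),
            om_out (fun h => lw h.2.2), outL w hw lw x y z hxw.symm hxy hyz hxz]
          simp
      · rw [om_out (x := x) (y := y) (z := z) (fun h => lz h.2.2),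
          om_out (x := x) (y := z) (z := w) (fun h => lz h.2.1),
          om_out (x := y) (y := z) (z := w) (fun h => lz h.2.1),
          outL z hz lz x y w hxz.symm hxy hyw hxw]
        simp
    · rw [om_out (x := x) (y := y) (z := z) (fun h => ly h.2.1),
        om_out (x := x) (y := y) (z := w) (fun h => ly h.2.1),
        om_out (x := y) (y := z) (z := w) (fun h => ly h.1),
        outL y hy ly x z w hxy.symm hxz hzw hxw]
      simp
  · rw [om_out (x := x) (y := y) (z := z) (fun h => lx h.1),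
      om_out (x := x) (y := y) (z := w) (fun h => lx h.1),
      om_out (x := x) (y := z) (z := w) (fun h => lx h.1),
      outL x hx lx y z w hxy hyz hzw hyw]
    simp

theorem ho_weight {Y : Set V} {l l' : List V} (ω : V → V → V → ZMod 2) (h : Ho G Y l l') :
    ∃ e, Hom G Y ω l l' e := (a_homA V G Y _).2.2.2.1 l l' 0 ω h

theorem weight_zero {Y : Set V} {l l' : List V} {ω : V → V → V → ZMod 2} (hl : ∀ v ∈ l, v ∈ Y)
    (hz : ∀ x ∈ Y, ∀ y ∈ Y, ∀ z ∈ Y, G.Adj x y → G.Adj y z → G.Adj x z → ω x y z = 0)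
    (h : Ho G Y l l') : Hom G Y ω l l' 0 := by
  obtain ⟨e, he⟩ := ho_weight ω h
  have h1 := a_tubeW V G Y (fun _ _ => 0) ω (fun _ _ => rfl) (fun x y z hx hy hz' a b c => by
    rw [hz x hx y hy z hz' a b c]; simp) l l' e hl he
  rw [sumE_zero, sumE_zero, add_zero] at h1
  rwa [h1] at he

theorem weight_L {L : Set V} {l l' : List V} {η : V → V → ZMod 2} (hη : ∀ x y, η x y = η y x)
    (hl : ∀ v ∈ l, v ∈ L) (h : Ho G L l l') :
    Hom G L (om L η) l l' (sumE η l + sumE η l') := by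
  obtain ⟨e, he⟩ := ho_weight (om L η) h
  have h1 := a_tubeW V G L η (om L η) hη (fun x y z hx hy hz _ _ _ => om_in hx hy hz) l l' e hl he
  rwa [h1] at he

theorem weight_mono {Y Y' : Set V} {l l' : List V} {ω : V → V → V → ZMod 2} {e : ZMod 2}
    (hY : Y ⊆ Y') (h : Hom G Y ω l l' e) : Hom G Y' ω l l' e :=
  (a_homA V G Y ω).2.2.2.2.1 l l' e Y' hY h

theorem weight_uniq {X : Cx V} {a : Equiv.Perm V} (hm : X.IsMetric) (hL : X.Large)
    (hF : FreeAut X a) {Y : Set V} {ω : V → V → V → ZMod 2} (hω : Cocyc X.G Y ω) {x y : V}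
    {l l' : List V} {e e' : ZMod 2} (hl : IsW X.G x y l) (lY : ∀ v ∈ l, v ∈ Y)
    (h : Hom X.G Y ω l l' e) (h' : Hom X.G Y ω l l' e') : e = e' := by
  obtain ⟨hT, hC, hR, -⟩ := a_homA V X.G Y ω
  have h1 := hT _ _ _ _ _ h (hR _ _ _ lY h').2
  have h2 := hom_catL a_homA l.reverse h1
  have h3 := hom_inv (ω := ω) a_homA hl lY
  have lrY : ∀ v ∈ cat l l.reverse, v ∈ Y := by
    intro v hv
    rcases mem_cat hv with h | h
    · exact lY v h
    · exact lY v (List.mem_reverse.1 h)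
  have h4 := (hR _ _ _ lrY h3).2
  have h5 := hT _ _ _ _ _ h4 (hT _ _ _ _ _ h2 h3)
  have xY : x ∈ Y := by
    obtain ⟨l0, hl0⟩ := isW_cons hl
    exact lY x (by rw [hl0]; simp)
  have h6 := a_sph V X a hm hL hF Y ω hω x _ xY h5
  rw [zero_add, add_zero] at h6
  have h7 : e' + e' = 0 := by linear_combination e' * two_z
  linear_combination h6 - h7

/-- The main identity: a tile with side `α` in `F`, a homotopy from `α` to `w` in `U`, a tile with
side `w` in `L`. -/
theorem master {X : Cx V} {a : Equiv.Perm V} (hm : X.IsMetric) (hL : X.Large) (hF : FreeAut X a)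
    (hadj : ∀ (g : Γ) x y, X.G.Adj (g • x) (g • y) ↔ X.G.Adj x y) {L Q F U : Set V}
    {η : V → V → ZMod 2} (hη : ∀ x y, η x y = η y x) (far : Far X.G L Q η) {g b : Γ}
    (hgb : g * b = b * g) {x : V} {α w s : List V} (hα : IsW X.G x (g • x) α)
    (hw : IsW X.G x (g • x) w) (hs : IsW X.G x (b • x) s) (αU : ∀ v ∈ α, v ∈ U)
    (hU : Ho X.G U α w) (UQ : U ⊆ Q) (bUQ : ∀ v ∈ U, b • v ∈ Q) (FQ : F ⊆ Q)
    (PF : ∀ v ∈ cat α (tr g s), v ∈ F) (h1 : Tile X.G F g b α s) (wL : ∀ v ∈ w, v ∈ L)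
    (gsL : ∀ v ∈ s, g • v ∈ L)
    (h3 : Tile X.G L g b w s) :
    sumE η w + sumE η (tr g s) + (sumE η s + sumE η (tr b w)) = 0 := by
  have hco := cocyc_om hη far
  have hQz : ∀ x ∈ Q, ∀ y ∈ Q, ∀ z ∈ Q, X.G.Adj x y → X.G.Adj y z → X.G.Adj x z →
      om L η x y z = 0 := by
    intro x hx y _ z _ hxy hyz hxz
    by_cases h : x ∈ L ∧ y ∈ L ∧ z ∈ L
    · rw [om_in h.1 h.2.1 h.2.2]
      exact far x hx x h.1 y h.2.1 z h.2.2 hxy hyz hxz (Or.inl rfl)
    · exact om_out h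
  obtain ⟨hT, -, -, -⟩ := a_homA V X.G (L ∪ Q) (om L η)
  have hgs := isW_tr hadj g hs
  have hbw : IsW X.G (b • x) (g • (b • x)) (tr b w) := by
    rw [← mul_smul, hgb, mul_smul]
    exact isW_tr hadj b hw
  have hbα : IsW X.G (b • x) (g • (b • x)) (tr b α) := by
    rw [← mul_smul, hgb, mul_smul]
    exact isW_tr hadj b hα
  -- `F`
  have k1 : Hom X.G (L ∪ Q) (om L η) (cat α (tr g s)) (cat s (tr b α)) 0 :=
    weight_mono (FQ.trans Set.subset_union_right) (weight_zero PF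
      (fun x hx y hy z hz => hQz x (FQ hx) y (FQ hy) z (FQ hz)) h1)
  -- `U`
  have k2 : Hom X.G (L ∪ Q) (om L η) (cat α (tr g s)) (cat w (tr g s)) 0 := by
    have := weight_mono (UQ.trans (Set.subset_union_right (s := L))) (weight_zero αU
      (fun x hx y hy z hz => hQz x (UQ hx) y (UQ hy) z (UQ hz)) hU)
    exact hom_catL a_homA _ this
  -- `L`
  have PL : ∀ v ∈ cat w (tr g s), v ∈ L := by
    intro v hv
    rcases mem_cat hv with h | h
    · exact wL v h
    · obtain ⟨u, hu, rfl⟩ := mem_tr.1 h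
      exact gsL u hu
  have k3 : Hom X.G (L ∪ Q) (om L η) (cat w (tr g s)) (cat s (tr b w))
      (sumE η (cat w (tr g s)) + sumE η (cat s (tr b w))) :=
    weight_mono Set.subset_union_left (weight_L hη PL h3)
  -- `b U`
  have hU' := ho_symm a_homA αU hU
  have k4 : Hom X.G (L ∪ Q) (om L η) (cat s (tr b w)) (cat s (tr b α)) 0 := by
    have j1 : Ho X.G {v | ∃ u ∈ U, b • u = v} (tr b w) (tr b α) :=
      ho_tr hadj b (fun y hy => ⟨y, hy, rfl⟩) hU'.2
    have bsub : {v | ∃ u ∈ U, b • u = v} ⊆ Q := by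
      rintro _ ⟨u, hu, rfl⟩
      exact bUQ u hu
    have j2 := weight_mono (bsub.trans (Set.subset_union_right (s := L)))
      (weight_zero (ω := om L η) (fun v hv => by
        obtain ⟨u, hu, rfl⟩ := mem_tr.1 hv
        exact ⟨u, hU'.1 u hu, rfl⟩)
      (fun x hx y hy z hz => hQz x (bsub hx) y (bsub hy) z (bsub hz)) j1)
    exact hom_catR a_homA hs hbw j2
  have k5 := hT _ _ _ _ _ (hT _ _ _ _ _ k2 k3) k4
  have PY : ∀ v ∈ cat α (tr g s), v ∈ L ∪ Q := fun v hv => Or.inr (FQ (PF v hv))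
  have k6 := weight_uniq hm hL hF hco (isW_cat hα hgs) PY k5 k1
  rw [zero_add, add_zero, sumE_cat η hw hgs, sumE_cat η hs hbw] at k6
  exact k6

end MSG.FS
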