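import Pool.Agent.Lib.MP_2a6af3_al.Z.Heights
import Pool.Agent.Lib.MP_acafa7_al.F.FullF

/-! `ℤ²`-subgroups are undistorted (MP_2a6af3_al, helper40). -/

namespace MSG.FS

open Classical
open MSG.H25.Gr (Ho ho_refl ho_trans ho_congr ho_symm ho_mono ho_isW ho_reverse ho_cancel ho_cat
  ho_of_loop isW_cat isW_reverse isW_single isW_ne isW_cons cat_eq cat_assoc cat_last cat_single
  cat_reverse cat_map mem_cat hom_zero exists_isW)

variable {V : Type} {Γ : Type} [Group Γ] [MulAction Γ V]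

/-- a square null-homotopic in `Y` is a tile -/
theorem tile_of_nul {G : SimpleGraph V} (hadj : ∀ (g : Γ) x y, G.Adj (g • x) (g • y) ↔ G.Adj x y)
    {Y : Set V} {g b : Γ} (hgb : g * b = b * g) {x : V} {α β : List V} (hα : IsW G x (g • x) α)
    (hβ : IsW G x (b • x) β) (hY : ∀ v, g • v ∈ Y ↔ v ∈ Y) (hY' : ∀ v, b • v ∈ Y ↔ v ∈ Y)
    (αY : ∀ v ∈ α, v ∈ Y) (βY : ∀ v ∈ β, v ∈ Y)
    (h : Nul G Y (sq (fun v => b • v) α β (β.map (fun v => g • v)))) : Tile G Y g b α β := by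
  have wgβ : IsW G (g • x) (g • (b • x)) (tr g β) := isW_tr hadj g hβ
  have wbα : IsW G (b • x) (g • (b • x)) (tr b α) := by
    rw [← mul_smul, hgb, mul_smul]
    exact isW_tr hadj b hα
  have wP := isW_cat hα wgβ
  have wQ := isW_cat hβ wbα
  have e3 : sq (fun v => b • v) α β (β.map (fun v => g • v)) =
      cat (cat α (tr g β)) (cat β (tr b α)).reverse := by
    unfold sq
    rw [cat_reverse hβ wbα, ← cat_assoc (isW_reverse wbα)]
    rfl
  rw [e3] at h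
  obtain ⟨-, y, hy, hy'⟩ := h
  have hyx : y = x := by
    have h1 := (isW_cat wP (isW_reverse wQ)).first
    rw [hy.first] at h1
    exact Option.some.inj h1
  subst hyx
  refine ho_of_loop a_homA wP wQ ?_ ?_ hy'
  · intro v hv
    rcases mem_cat hv with hv | hv
    · exact αY v hv
    · obtain ⟨u, hu, rfl⟩ := mem_tr.1 hv
      exact (hY u).2 (βY u hu)
  · intro v hv
    rcases mem_cat hv with hv | hv
    · exact βY v hv
    · obtain ⟨u, hu, rfl⟩ := mem_tr.1 hv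
      exact (hY' u).2 (αY u hu)

/-- a geodesic walk -/
theorem exists_geod {G : SimpleGraph V} (hG : G.Connected) (x y : V) :
    ∃ l, IsW G x y l ∧ l.length = G.dist x y + 1 := by
  obtain ⟨p, hp⟩ := (hG x y).exists_walk_length_eq_dist
  refine ⟨p.support, ⟨p.isChain_adj_support, ?_, ?_⟩, ?_⟩
  · rw [List.head?_eq_some_head p.support_ne_nil, p.head_support]
  · rw [List.getLast?_eq_some_getLast p.support_ne_nil, p.getLast_support]
  · rw [SimpleGraph.Walk.length_support, hp]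

theorem nr_dist {G : SimpleGraph V} {x y : V} (h : Nr G x y) : G.dist x y ≤ 1 := by
  rcases h with rfl | h
  · simp
  · exact (SimpleGraph.dist_eq_one_iff_adj.2 h).le

/-- the estimate for one coordinate, positive exponents -/
theorem half {X : Cx V} (hMS : X.IsMS) (hG : X.IsGeom Γ) {a b : Γ} (hab : a * b = b * a)
    (hfree : ∀ i j : ℤ, a ^ i * b ^ j = 1 → i = 0 ∧ j = 0) (x : V) :
    ∃ K : ℕ, ∀ i j : ℤ, i ≤ K * (X.G.dist x ((a ^ i * b ^ j) • x) : ℤ) := by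
  have hadj := hG.adj
  obtain ⟨C, hC⟩ := f_coarse V X Γ hMS hG
  obtain ⟨S, w, hS, hxS, hwW, hwL, hwN⟩ := a_grid V X Γ hMS hG a b x hab
  obtain ⟨h₁, h₂, H, hH0, heq, hbd⟩ := ht2 hG hab hfree hS
  obtain ⟨L, hLdef⟩ : ∃ L : Set V, L = orb2 a b S := ⟨_, rfl⟩
  rw [← hLdef] at heq hbd
  have Linv : ∀ (i j : ℤ) (v : V), (a ^ i * b ^ j) • v ∈ L ↔ v ∈ L := by
    intro i j v
    rw [hLdef]
    exact orb2_smul hab S i j v
  have Lb : ∀ v, b • v ∈ L ↔ v ∈ L := by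
    intro v
    have := Linv 0 1 v
    simpa using this
  have hb1 : ∀ v ∈ L, h₁ (b • v) = h₁ v ∧ h₂ (b • v) = h₂ v + 1 := by
    intro v hv
    have := heq v hv 0 1
    simpa using this
  have hF : FreeAut X (MulAction.toPerm b) := by
    refine (a_proper V X Γ hG).2 b ?_
    intro n hn
    exact (hfree 0 n (by rw [zpow_zero, one_mul, hn])).2
  -- the walk `σ`
  obtain ⟨σ, hσ⟩ : ∃ σ : List V, σ = w 0 1 := ⟨_, rfl⟩
  have wσ : IsW X.G x (b • x) σ := by
    have := hwW 0 1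
    rw [zpow_zero, zpow_one, one_mul] at this
    rw [hσ]
    exact this
  have σL : ∀ v ∈ σ, v ∈ L := by
    intro v hv
    rw [hLdef]
    rw [hσ] at hv
    exact hwL 0 1 v hv
  -- the bound on `σ`
  obtain ⟨R, hR⟩ : ∃ R : ℕ, ∀ v ∈ σ, |h₁ v| ≤ R := by
    have hf : ((fun v => |h₁ v|) '' {v | v ∈ σ}).Finite := (List.finite_toSet σ).image _
    obtain ⟨R, hR⟩ := hf.bddAbove
    refine ⟨R.toNat, fun v hv => ?_⟩
    have h1 : |h₁ v| ≤ R := hR ⟨v, hv, rfl⟩
    exact h1.trans (Int.self_le_toNat R)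
  obtain ⟨n, hn⟩ := hC.ball 1
  obtain ⟨B, hBdef⟩ : ∃ B : ℕ, B = n * ((2 * H.toNat + 1) * (2 * H.toNat + 1)) := ⟨_, rfl⟩
  refine ⟨2 * R + 1 + 4 * (B * C) * (1 + σ.length) ^ 2, ?_⟩
  intro t₁ t₂
  obtain ⟨g, hg⟩ : ∃ g : Γ, g = a ^ t₁ * b ^ t₂ := ⟨_, rfl⟩
  obtain ⟨f, hf⟩ : ∃ f : ℕ, f = X.G.dist x (g • x) := ⟨_, rfl⟩
  rw [← hg, ← hf]
  rcases le_or_gt t₁ 0 with ht | ht
  · exact ht.trans (by positivity)
  have f1 : 1 ≤ f := by
    by_contra h0
    have h1 : X.G.dist x (g • x) = 0 := by omega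
    have h2 : x = g • x := (hMS.conn.dist_eq_zero_iff).1 h1
    rw [hg] at h2
    have h3 := free2 hG hab hfree h2.symm
    omega
  obtain ⟨α, hα, hαl⟩ := exists_geod hMS.conn x (g • x)
  rw [← hf] at hαl
  have hgb : g * b = b * g := by
    have := comm_pow_pow hab t₁ t₂ 0 1
    have h' := comm_pow_pow hab 0 1 t₁ t₂
    simp only [zpow_zero, zpow_one, one_mul] at this h'
    rw [hg, this, h']
    congr 2
    · ring
    · ring
  have hgL : ∀ v, g • v ∈ L ↔ v ∈ L := by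
    intro v
    rw [hg]
    exact Linv t₁ t₂ v
  have hg1 : ∀ v ∈ L, h₁ (g • v) = h₁ v + t₁ := by
    intro v hv
    rw [hg]
    exact (heq v hv t₁ t₂).1
  have ww : IsW X.G x (g • x) (w t₁ t₂) := by
    rw [hg]
    exact hwW t₁ t₂
  have wwL : ∀ v ∈ w t₁ t₂, v ∈ L := by
    intro v hv
    rw [hLdef]
    exact hwL t₁ t₂ v hv
  have tile : Tile X.G L g b (w t₁ t₂) σ := by
    refine tile_of_nul hadj hgb ww wσ hgL Lb wwL σL ?_
    have := hwN t₁ t₂ 0 1
    rw [← hLdef, ← hg, ← hσ] at this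
    have e : (fun v : V => (a ^ (0 : ℤ) * b ^ (1 : ℤ)) • v) = fun v => b • v := by
      funext v
      rw [zpow_zero, zpow_one, one_mul]
    rw [e] at this
    exact this
  -- the walls
  obtain ⟨I, hI⟩ : ∃ I : Finset ℤ, I = Finset.Ioo (R : ℤ) (t₁ - R) := ⟨_, rfl⟩
  obtain ⟨χ, hχ⟩ : ∃ χ : ℤ → V → ZMod 2, χ = fun i v => if i ≤ h₁ v then 1 else 0 := ⟨_, rfl⟩
  obtain ⟨Zn, hZn⟩ : ∃ Zn : ℤ → Set V, Zn = fun i => {v | |h₁ v - i| ≤ H} := ⟨_, rfl⟩
  have memZ : ∀ i v, v ∈ Zn i ↔ |h₁ v - i| ≤ H := by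
    intro i v
    rw [hZn]
    rfl
  have W : ∀ i ∈ I, Wall X.G L b (χ i) h₂ (Zn i) H := by
    intro i _
    refine ⟨?_, ?_, ?_, ?_, ?_⟩
    · intro v hv
      rw [memZ, memZ, (hb1 v hv).1]
    · intro v hv _
      exact (hb1 v hv).2
    · intro v hv
      rw [hχ]
      simp only
      rw [(hb1 v hv).1]
    · intro u hu v hv huv hne
      rw [memZ]
      have h1 := abs_le.1 (hbd u hu v hv (Or.inr huv)).1
      rw [hχ] at hne
      simp only at hne
      rw [abs_le]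
      by_cases c1 : i ≤ h₁ u
      · by_cases c2 : i ≤ h₁ v
        · rw [if_pos c1, if_pos c2] at hne
          exact absurd rfl hne
        · constructor <;> omega
      · by_cases c2 : i ≤ h₁ v
        · constructor <;> omega
        · rw [if_neg c1, if_neg c2] at hne
          exact absurd rfl hne
    · intro u hu v hv _ _ huv
      exact (hbd u hu v hv (Or.inr huv)).2
  have χσ : ∀ i ∈ I, ∀ v ∈ σ, χ i v = 0 ∧ χ i (g • v) = 1 := by
    intro i hi v hv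
    rw [hI, Finset.mem_Ioo] at hi
    have h1 := abs_le.1 (hR v hv)
    rw [hχ]
    simp only
    constructor
    · rw [if_neg (by omega)]
    · rw [hg1 v (σL v hv), if_pos (by omega)]
  have hB : ∀ c : V, ∃ T : Finset (ℤ × ℤ), T.card ≤ B ∧ ∀ i ∈ I, ∀ p : ℤ, ∀ y ∈ L, y ∈ Zn i →
      Nr X.G c y → |h₂ y - p| ≤ H → (i, p) ∈ T := by
    intro c
    refine ⟨(hn c).1.toFinset.biUnion (fun y => Finset.Icc (h₁ y - H) (h₁ y + H) ×ˢ
      Finset.Icc (h₂ y - H) (h₂ y + H)), ?_, ?_⟩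
    · refine (Finset.card_biUnion_le_card_mul _ _ ((2 * H.toNat + 1) * (2 * H.toNat + 1)) ?_).trans ?_
      · intro y _
        rw [Finset.card_product, Int.card_Icc, Int.card_Icc]
        have e1 : (h₁ y + H + 1 - (h₁ y - H)).toNat = 2 * H.toNat + 1 := by omega
        have e2 : (h₂ y + H + 1 - (h₂ y - H)).toNat = 2 * H.toNat + 1 := by omega
        rw [e1, e2]
      · rw [hBdef, ← Set.ncard_eq_toFinset_card _ (hn c).1]
        exact Nat.mul_le_mul_right _ (hn c).2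
    · intro i _ p y _ hyZ hcy hp
      rw [memZ] at hyZ
      rw [Finset.mem_biUnion]
      refine ⟨y, (hn c).1.mem_toFinset.2 (nr_dist hcy), ?_⟩
      have h1 := abs_le.1 hyZ
      have h2 := abs_le.1 hp
      rw [Finset.mem_product, Finset.mem_Icc, Finset.mem_Icc]
      simp only
      omega
  have key := wall_thm hMS hG hC hgb hF Lb ww wσ wwL (fun v hv => ⟨σL v hv, (hgL v).2 (σL v hv)⟩)
    tile I χ (fun _ => h₂) Zn W χσ B hB f hα
  rw [hαl, hI, Int.card_Ioo] at key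
  -- arithmetic
  obtain ⟨u, hu⟩ : ∃ u : ℕ, u = (t₁ - R - R - 1).toNat := ⟨_, rfl⟩
  have e1 : (t₁ - (R : ℤ) - R - 1).toNat = u := hu.symm
  rw [e1] at key
  have σ1 : 1 ≤ σ.length := by
    obtain ⟨s1, hs1⟩ := isW_cons wσ
    rw [hs1]; simp
  have b1 : f + 1 + f * (σ.length - 1) ≤ f * (1 + σ.length) := by
    obtain ⟨s, hs⟩ : ∃ s : ℕ, σ.length = s + 1 := ⟨σ.length - 1, by omega⟩
    rw [hs, Nat.add_sub_cancel]
    nlinarith
  have b2 : u * f ≤ (4 * (B * C) * (1 + σ.length) ^ 2 * f) * f := by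
    calc u * f ≤ B * (C * (2 * (f + 1 + f * (σ.length - 1))) ^ 2) := key
      _ ≤ B * (C * (2 * (f * (1 + σ.length))) ^ 2) := by
          apply Nat.mul_le_mul_left
          apply Nat.mul_le_mul_left
          apply Nat.pow_le_pow_left
          omega
      _ = _ := by ring
  have b3 : u ≤ 4 * (B * C) * (1 + σ.length) ^ 2 * f := Nat.le_of_mul_le_mul_right b2 (by omega)
  have b4 : t₁ ≤ u + 2 * R + 1 := by omega
  have b5 : (2 * R + 1 : ℤ) ≤ (2 * R + 1) * f := by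
    have : (1 : ℤ) ≤ f := by exact_mod_cast f1
    nlinarith
  have b6 : (u : ℤ) ≤ 4 * (B * C) * (1 + σ.length) ^ 2 * f := by exact_mod_cast b3
  push_cast
  calc t₁ ≤ u + 2 * R + 1 := b4
    _ ≤ 4 * (B * C) * (1 + σ.length) ^ 2 * f + (2 * R + 1) * f := by linarith
    _ = _ := by ring

/-- `ℤ²`-subgroups are undistorted in the complex -/
theorem rank2 {X : Cx V} (hMS : X.IsMS) (hG : X.IsGeom Γ) {a b : Γ} (hab : a * b = b * a)
    (hfree : ∀ i j : ℤ, a ^ i * b ^ j = 1 → i = 0 ∧ j = 0) (x : V) :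
    ∃ K : ℕ, ∀ i j : ℤ, |i| ≤ K * (X.G.dist x ((a ^ i * b ^ j) • x) : ℤ) ∧
      |j| ≤ K * (X.G.dist x ((a ^ i * b ^ j) • x) : ℤ) := by
  have hadj := hG.adj
  have hfree' : ∀ i j : ℤ, b ^ i * a ^ j = 1 → i = 0 ∧ j = 0 := by
    intro i j h
    have h1 : Commute a b := hab
    rw [(h1.symm.zpow_zpow i j).eq] at h
    exact (hfree j i h).symm
  obtain ⟨K, hK⟩ := half hMS hG hab hfree x
  obtain ⟨K', hK'⟩ := half hMS hG hab.symm hfree' x
  have dinv : ∀ g : Γ, X.G.dist x (g⁻¹ • x) = X.G.dist x (g • x) := by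
    intro g
    have h1 := F75.dist_smul hG hMS.conn g x (g⁻¹ • x)
    rw [smul_inv_smul] at h1
    rw [← h1, SimpleGraph.dist_comm]
  have hc : ∀ i j : ℤ, b ^ j * a ^ i = a ^ i * b ^ j := fun i j =>
    ((show Commute a b from hab).symm.zpow_zpow j i).eq
  have hinv : ∀ i j : ℤ, (a ^ i * b ^ j)⁻¹ = a ^ (-i) * b ^ (-j) := by
    intro i j
    rw [mul_inv_rev, ← zpow_neg, ← zpow_neg, hc]
  refine ⟨K + K', fun i j => ?_⟩
  obtain ⟨d, hd⟩ : ∃ d : ℕ, d = X.G.dist x ((a ^ i * b ^ j) • x) := ⟨_, rfl⟩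
  have h1 := hK i j
  have h2 := hK (-i) (-j)
  rw [← hinv, dinv] at h2
  have h3 := hK' j i
  have h4 := hK' (-j) (-i)
  rw [hc] at h3 h4
  rw [← hinv, dinv] at h4
  rw [← hd] at h1 h2 h3 h4 ⊢
  have e : ((K + K' : ℕ) : ℤ) * d = K * d + K' * d := by push_cast; ring
  have p1 : (0 : ℤ) ≤ K * d := by positivity
  have p2 : (0 : ℤ) ≤ K' * d := by positivity
  rw [e, abs_le, abs_le]
  constructor <;> constructor <;> linarith

end MSG.FS
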