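import Pool.Agent.Lib.MP_acafa7_al.MS.Full1

/-! Translates of walks, powers of a walk, tiles and their stacking (MP_2a6af3_al, helper40). -/

namespace MSG.FS

open Classical
open MSG.H25.Gr (Ho ho_refl ho_trans ho_congr ho_symm ho_mono ho_isW ho_reverse ho_cancel ho_cat
  ho_of_loop isW_cat isW_reverse isW_single isW_ne isW_cons cat_eq cat_assoc cat_last cat_single
  cat_reverse cat_map mem_cat hom_zero)

variable {V : Type} {Γ : Type} [Group Γ] [MulAction Γ V] {G : SimpleGraph V}

/-- translate of a walk -/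
def tr (g : Γ) (l : List V) : List V := l.map (fun v => g • v)

theorem tr_tr (g g' : Γ) (l : List V) : tr g (tr g' l) = tr (g * g') l := by
  unfold tr
  rw [List.map_map]
  exact List.map_congr_left (fun v _ => (mul_smul g g' v).symm)

theorem tr_cat (g : Γ) (l m : List V) : tr g (cat l m) = cat (tr g l) (tr g m) := cat_map _ l m

theorem tr_one (l : List V) : tr (1 : Γ) l = l := by simp [tr]

theorem tr_single (g : Γ) (x : V) : tr g [x] = [g • x] := rfl

theorem mem_tr {g : Γ} {l : List V} {v : V} : v ∈ tr g l ↔ ∃ u ∈ l, g • u = v := List.mem_map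

theorem length_tr (g : Γ) (l : List V) : (tr g l).length = l.length := List.length_map _

theorem length_cat {l m : List V} : (cat l m).length = l.length + (m.length - 1) := by
  simp [cat]

theorem isW_tr (hadj : ∀ (g : Γ) x y, G.Adj (g • x) (g • y) ↔ G.Adj x y) (g : Γ) {x y : V}
    {l : List V} (h : IsW G x y l) : IsW G (g • x) (g • y) (tr g l) :=
  H25.Gr.isW_map _ (fun x y h => (hadj g x y).2 h) h

/-- `l` followed by its translates -/
def pw (g : Γ) (l : List V) (x : V) : ℕ → List V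
  | 0 => [x]
  | n + 1 => cat (pw g l x n) (tr (g ^ n) l)

theorem isW_pw (hadj : ∀ (g : Γ) x y, G.Adj (g • x) (g • y) ↔ G.Adj x y) {g : Γ} {x : V}
    {l : List V} (h : IsW G x (g • x) l) (n : ℕ) : IsW G x (g ^ n • x) (pw g l x n) := by
  induction n with
  | zero =>
    rw [pow_zero, one_smul]
    exact isW_single x
  | succ n ih =>
    have h1 := isW_tr hadj (g ^ n) h
    rw [← mul_smul, ← pow_succ] at h1
    exact isW_cat ih h1

theorem length_pw {g : Γ} {x : V} {l : List V} (n : ℕ) :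
    (pw g l x n).length = n * (l.length - 1) + 1 := by
  induction n with
  | zero => simp [pw]
  | succ n ih =>
    rw [pw, length_cat, ih, length_tr]
    ring

theorem mem_pw {g : Γ} {x : V} {l : List V} {n : ℕ} {v : V} (h : v ∈ pw g l x n) :
    v = x ∨ ∃ k < n, ∃ u ∈ l, v = g ^ k • u := by
  induction n with
  | zero => exact Or.inl (by simpa [pw] using h)
  | succ n ih =>
    rcases mem_cat h with h | h
    · rcases ih h with h | ⟨k, hk, u, hu, h⟩
      · exact Or.inl h
      · exact Or.inr ⟨k, by omega, u, hu, h⟩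
    · obtain ⟨u, hu, h⟩ := mem_tr.1 h
      exact Or.inr ⟨n, by omega, u, hu, h.symm⟩

theorem ho_tr (hadj : ∀ (g : Γ) x y, G.Adj (g • x) (g • y) ↔ G.Adj x y) (g : Γ) {Y Y' : Set V}
    {l l' : List V} (hY : ∀ y ∈ Y, g • y ∈ Y') (h : Ho G Y l l') : Ho G Y' (tr g l) (tr g l') := by
  have h1 := (a_homA V G Y (fun _ _ _ => 0)).2.2.2.2.2.2.2.2.2 (MulAction.toPerm g) (hadj g) l l' 0 h
  refine ho_mono a_homA ?_ h1
  rintro _ ⟨y, hy, rfl⟩
  exact hY y hy

/-- the square of `α` and `β` is null-homotopic in `Y` -/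
def Tile (G : SimpleGraph V) (Y : Set V) (g b : Γ) (α β : List V) : Prop :=
  Ho G Y (cat α (tr g β)) (cat β (tr b α))

theorem Tile.stack (hadj : ∀ (g : Γ) x y, G.Adj (g • x) (g • y) ↔ G.Adj x y) {Y Y' : Set V}
    {g b : Γ} (hgb : g * b = b * g) {x : V} {α β : List V} (hα : IsW G x (g • x) α)
    (hβ : IsW G x (b • x) β) (ht : Tile G Y g b α β) (N : ℕ)
    (hY : ∀ k < N, ∀ y ∈ Y, b ^ k • y ∈ Y') : Tile G Y' g (b ^ N) α (pw b β x N) := by
  unfold Tile
  induction N with
  | zero =>
    have e1 : cat α (tr g (pw b β x 0)) = α := by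
      show cat α [g • x] = α
      exact cat_last _
    have e2 : cat (pw b β x 0) (tr (b ^ 0) α) = α := by
      rw [pow_zero, tr_one]
      exact cat_single hα
    rw [e1, e2]
    exact ho_refl _
  | succ N ih =>
    have ih' := ih (fun k hk => hY k (by omega))
    have hcomm : g * b ^ N = b ^ N * g := ((show Commute g b from hgb).pow_right N).eq
    have w1 := isW_pw hadj hβ N
    have w2 : IsW G (g • x) (g • (b ^ N • x)) (tr g (pw b β x N)) := isW_tr hadj g w1
    have w3 : IsW G (b ^ N • x) (b ^ N • (b • x)) (tr (b ^ N) β) := isW_tr hadj (b ^ N) hβ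
    have w4 : IsW G (g • (b ^ N • x)) (g • (b ^ N • (b • x))) (tr g (tr (b ^ N) β)) :=
      isW_tr hadj g w3
    have w5 : IsW G (b ^ N • x) (b ^ N • (g • x)) (tr (b ^ N) α) := isW_tr hadj (b ^ N) hα
    have e1 : cat α (tr g (pw b β x (N + 1))) =
        cat (cat α (tr g (pw b β x N))) (tr g (tr (b ^ N) β)) := by
      rw [pw, tr_cat, cat_assoc w2]
    have e2 : cat (cat (pw b β x N) (tr (b ^ N) α)) (tr g (tr (b ^ N) β)) =
        cat (pw b β x N) (tr (b ^ N) (cat α (tr g β))) := by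
      rw [cat_assoc w5, tr_cat, tr_tr, tr_tr, hcomm]
    have e3 : cat (pw b β x (N + 1)) (tr (b ^ (N + 1)) α) =
        cat (pw b β x N) (tr (b ^ N) (cat β (tr b α))) := by
      rw [pw, cat_assoc w3, tr_cat, tr_tr, ← pow_succ]
    rw [e1, e3]
    have h1 : Ho G Y' (cat (cat α (tr g (pw b β x N))) (tr g (tr (b ^ N) β)))
        (cat (cat (pw b β x N) (tr (b ^ N) α)) (tr g (tr (b ^ N) β))) :=
      ho_cat a_homA (isW_cat hα w2) w4 ih' (ho_refl _)
    rw [e2] at h1
    have h2 : Ho G Y' (cat (pw b β x N) (tr (b ^ N) (cat α (tr g β))))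
        (cat (pw b β x N) (tr (b ^ N) (cat β (tr b α)))) := by
      have w6 : IsW G (b ^ N • x) (b ^ N • (g • (b • x))) (tr (b ^ N) (cat α (tr g β))) :=
        isW_tr hadj _ (isW_cat hα (isW_tr hadj g hβ))
      exact ho_cat a_homA w1 w6 (ho_refl _) (ho_tr hadj (b ^ N) (hY N (by omega)) ht)
    exact ho_trans a_homA h1 h2

theorem Tile.symm {Y : Set V} {g b : Γ} {α β : List V} (hY : ∀ v ∈ cat α (tr g β), v ∈ Y)
    (ht : Tile G Y g b α β) : Tile G Y b g β α :=
  (ho_symm a_homA hY ht).2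

theorem Tile.mono {Y Y' : Set V} {g b : Γ} {α β : List V} (hY : Y ⊆ Y')
    (ht : Tile G Y g b α β) : Tile G Y' g b α β := ho_mono a_homA hY ht

end MSG.FS
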