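import Pool.Agent.Lib.MP_2a6af3_al.Z.Master

/-! A wall gives a contradiction (MP_2a6af3_al, helper40). -/

namespace MSG.FS

open Classical
open MSG.H25.Gr (Ho ho_refl ho_trans ho_congr ho_symm ho_mono ho_isW ho_reverse ho_cancel ho_cat
  ho_of_loop isW_cat isW_reverse isW_single isW_ne isW_cons cat_eq cat_assoc cat_last cat_single
  cat_reverse cat_map mem_cat hom_zero)
open MSG.H84 (sumE_cat sumE_reverse sumE_congr sumE_zero hom_catL hom_catR hom_inv)

variable {V : Type} {Γ : Type} [Group Γ] [MulAction Γ V] {G : SimpleGraph V}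

/-- A wall: a function `χ` on `L`, a zone `Zn` where it jumps, a height `h` on the zone. -/
structure Wall (G : SimpleGraph V) (L : Set V) (a : Γ) (χ : V → ZMod 2) (h : V → ℤ) (Zn : Set V)
    (H : ℤ) : Prop where
  inv : ∀ v ∈ L, (a • v ∈ Zn ↔ v ∈ Zn)
  ha : ∀ v ∈ L, v ∈ Zn → h (a • v) = h v + 1
  chi : ∀ v ∈ L, χ (a • v) = χ v
  zn : ∀ x ∈ L, ∀ y ∈ L, G.Adj x y → χ x ≠ χ y → x ∈ Zn
  hH : ∀ x ∈ L, ∀ y ∈ L, x ∈ Zn → y ∈ Zn → G.Adj x y → |h x - h y| ≤ H

/-- the jump of `χ` below the height `p` -/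
noncomputable def et (χ : V → ZMod 2) (h : V → ℤ) (p : ℤ) (x y : V) : ZMod 2 :=
  if h x < p ∧ h y < p then χ x + χ y else 0

theorem et_symm (χ : V → ZMod 2) (h : V → ℤ) (p : ℤ) (x y : V) : et χ h p x y = et χ h p y x := by
  unfold et
  rw [add_comm (χ x)]
  simp only [and_comm]

theorem add_self_z (e : ZMod 2) : e + e = 0 := by linear_combination e * two_z

theorem et_eq {χ : V → ZMod 2} {h : V → ℤ} {p : ℤ} {x y : V} (e : χ x = χ y) :
    et χ h p x y = 0 := by
  unfold et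
  split_ifs
  · rw [e]; exact add_self_z _
  · rfl

theorem et_hi {χ : V → ZMod 2} {h : V → ℤ} {p : ℤ} {x y : V} (e : p ≤ h x ∨ p ≤ h y) :
    et χ h p x y = 0 := by
  unfold et
  rw [if_neg]
  rintro ⟨h1, h2⟩
  rcases e with e | e <;> omega

theorem et_lo {χ : V → ZMod 2} {h : V → ℤ} {p : ℤ} {x y : V} (e : h x < p ∧ h y < p) :
    et χ h p x y = χ x + χ y := if_pos e

theorem Wall.tri {L : Set V} {a : Γ} {χ : V → ZMod 2} {h : V → ℤ} {Zn : Set V} {H : ℤ}
    (W : Wall G L a χ h Zn H) {p : ℤ} {x y z : V} (hx : x ∈ L) (hy : y ∈ L) (hz : z ∈ L)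
    (hxy : G.Adj x y) (hyz : G.Adj y z) (hxz : G.Adj x z)
    (hne : et χ h p x y + et χ h p y z + et χ h p x z ≠ 0) : x ∈ Zn ∧ |h x - p| ≤ H := by
  have hnc : ¬ (χ x = χ y ∧ χ y = χ z) := by
    rintro ⟨e1, e2⟩
    apply hne
    rw [et_eq e1, et_eq e2, et_eq (e1.trans e2)]
    simp
  have zx : x ∈ Zn := by
    by_cases e : χ x = χ y
    · by_cases e' : χ x = χ z
      · exact absurd ⟨e, e.symm.trans e'⟩ hnc
      · exact W.zn x hx z hz hxz e'
    · exact W.zn x hx y hy hxy e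
  have zy : y ∈ Zn := by
    by_cases e : χ y = χ x
    · by_cases e' : χ y = χ z
      · exact absurd ⟨e.symm, e'⟩ hnc
      · exact W.zn y hy z hz hyz e'
    · exact W.zn y hy x hx hxy.symm e
  have zz : z ∈ Zn := by
    by_cases e : χ z = χ x
    · by_cases e' : χ z = χ y
      · exact absurd ⟨e.symm.trans e', e'.symm⟩ hnc
      · exact W.zn z hz y hy hyz.symm e'
    · exact W.zn z hz x hx hxz.symm e
  refine ⟨zx, ?_⟩
  have b1 := abs_le.1 (W.hH x hx y hy zx zy hxy)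
  have b2 := abs_le.1 (W.hH x hx z hz zx zz hxz)
  by_contra hc
  rw [abs_le] at hc
  apply hne
  rcases lt_or_ge (h x - p) (-H) with h1 | h1
  · rw [et_lo ⟨by omega, by omega⟩, et_lo ⟨by omega, by omega⟩, et_lo ⟨by omega, by omega⟩]
    linear_combination (χ x + χ y + χ z) * two_z
  · have h2 : H < h x - p := by
      by_contra h3
      exact hc ⟨h1, by omega⟩
    rw [et_hi (Or.inl (by omega)), et_hi (Or.inl (by omega)), et_hi (Or.inl (by omega))]
    simp

theorem sumE_tel {η : V → V → ZMod 2} {χ : V → ZMod 2} {l : List V} : ∀ {x y : V},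
    IsW G x y l → (∀ u ∈ l, ∀ v ∈ l, G.Adj u v → η u v = χ u + χ v) →
    sumE η l = χ x + χ y := by
  induction l with
  | nil =>
    intro x y hl
    exact absurd rfl (isW_ne hl)
  | cons c l ih =>
    intro x y hl h
    have hc : c = x := by simpa using hl.first
    subst hc
    cases l with
    | nil =>
      have hy : c = y := by simpa using hl.last
      subst hy
      exact (add_self_z _).symm
    | cons d l =>
      have hch := hl.chain
      rw [List.isChain_cons_cons] at hch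
      have hl' : IsW G d y (d :: l) := ⟨hch.2, rfl, by
        have := hl.last
        rwa [List.getLast?_cons_cons] at this⟩
      have e1 : sumE η (c :: d :: l) = η c d + sumE η (d :: l) := rfl
      rw [e1, h c (by simp) d (by simp) hch.1, ih hl' (fun u hu v hv =>
        h u (List.mem_cons_of_mem _ hu) v (List.mem_cons_of_mem _ hv))]
      linear_combination (χ d) * two_z

theorem sumE_null {η : V → V → ZMod 2} {x y : V} {l : List V} (hl : IsW G x y l)
    (h : ∀ u ∈ l, ∀ v ∈ l, G.Adj u v → η u v = 0) : sumE η l = 0 := by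
  have := sumE_tel (η := η) (χ := fun _ => 0) hl (fun u hu v hv a => by
    rw [h u hu v hv a, add_zero])
  rwa [add_zero] at this

/-- One wall and one height `p` whose neighbourhood is avoided by `Q`. -/
theorem wall_one {X : Cx V} {t : Equiv.Perm V} (hm : X.IsMetric) (hL : X.Large) (hF : FreeAut X t)
    (hadj : ∀ (g : Γ) x y, X.G.Adj (g • x) (g • y) ↔ X.G.Adj x y) {L Q F U : Set V} {a : Γ}
    {χ : V → ZMod 2} {h : V → ℤ} {Zn : Set V} {H : ℤ} (W : Wall X.G L a χ h Zn H) {p : ℤ}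
    (far : ∀ c ∈ Q, ∀ x ∈ L, x ∈ Zn → Nr X.G c x → H < |h x - p|) {g b : Γ}
    (hgb : g * b = b * g) {x : V} {α w s : List V} (hα : IsW X.G x (g • x) α)
    (hw : IsW X.G x (g • x) w) (hs : IsW X.G x (b • x) s) (αU : ∀ v ∈ α, v ∈ U)
    (hU : Ho X.G U α w) (UQ : U ⊆ Q) (bUQ : ∀ v ∈ U, b • v ∈ Q) (FQ : F ⊆ Q)
    (PF : ∀ v ∈ cat α (tr g s), v ∈ F) (h1 : Tile X.G F g b α s) (wL : ∀ v ∈ w, v ∈ L)
    (bwL : ∀ v ∈ w, b • v ∈ L)
    (sL : ∀ v ∈ s, v ∈ L ∧ g • v ∈ L ∧ χ v = 0 ∧ χ (g • v) = 1) (h3 : Tile X.G L g b w s)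
    (c1 : ∀ v ∈ w, v ∈ Zn → h v < p) (c2 : ∀ v ∈ w, b • v ∈ Zn → p ≤ h (b • v)) : False := by
  have farη : Far X.G L Q (et χ h p) := by
    intro c hc u hu v hv w hw huv hvw huw hcu
    by_contra hne
    have h1 := W.tri hu hv hw huv hvw huw hne
    exact absurd (far c hc u hu h1.1 hcu) (not_lt.2 h1.2)
  have key := master hm hL hF hadj (et_symm χ h p) farη hgb hα hw hs αU hU UQ bUQ FQ PF h1 wL
    (fun v hv => (sL v hv).2.1) h3
  have hgs := isW_tr hadj g hs
  have hbw := isW_tr hadj b hw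
  have e1 : sumE (et χ h p) w = χ x + χ (g • x) := by
    refine sumE_tel hw ?_
    intro u hu v hv huv
    by_cases e : χ u = χ v
    · rw [et_eq e, e]
      exact (add_self_z _).symm
    · exact et_lo ⟨c1 u hu (W.zn u (wL u hu) v (wL v hv) huv e),
        c1 v hv (W.zn v (wL v hv) u (wL u hu) huv.symm (Ne.symm e))⟩
  have e2 : sumE (et χ h p) (tr g s) = 0 := by
    refine sumE_null hgs ?_
    intro u hu v hv _
    obtain ⟨u', hu', rfl⟩ := mem_tr.1 hu
    obtain ⟨v', hv', rfl⟩ := mem_tr.1 hv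
    exact et_eq ((sL u' hu').2.2.2.trans (sL v' hv').2.2.2.symm)
  have e3 : sumE (et χ h p) s = 0 := by
    refine sumE_null hs ?_
    intro u hu v hv _
    exact et_eq ((sL u hu).2.2.1.trans (sL v hv).2.2.1.symm)
  have e4 : sumE (et χ h p) (tr b w) = 0 := by
    refine sumE_null hbw ?_
    intro u hu v hv huv
    obtain ⟨u', hu', rfl⟩ := mem_tr.1 hu
    obtain ⟨v', hv', rfl⟩ := mem_tr.1 hv
    by_cases e : χ (b • u') = χ (b • v')
    · exact et_eq e
    · exact et_hi (Or.inl (c2 u' hu' (W.zn _ (bwL u' hu') _ (bwL v' hv') huv e)))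
  have xs : x ∈ s := by
    obtain ⟨s0, hs0⟩ := isW_cons hs
    rw [hs0]; simp
  rw [e1, e2, e3, e4, (sL x xs).2.2.1, (sL x xs).2.2.2] at key
  simp at key

end MSG.FS
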