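import Pool.Agent.Lib.MP_2a6af3_al.Z.WallOne
import Pool.Agent.Lib.MP_acafa7_al.F.Defs

/-! The wall theorem: counting (MP_2a6af3_al, helper40). -/

namespace MSG.FS

open Classical
open MSG.H25.Gr (Ho ho_refl ho_trans ho_congr ho_symm ho_mono ho_isW ho_reverse ho_cancel ho_cat
  ho_of_loop isW_cat isW_reverse isW_single isW_ne isW_cons cat_eq cat_assoc cat_last cat_single
  cat_reverse cat_map mem_cat hom_zero)

variable {V : Type} {Γ : Type} [Group Γ] [MulAction Γ V] {G : SimpleGraph V}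

theorem ho_of_homA {S : Set V} {l l' : List V} {e : ℤ}
    (h : HomA G S (fun _ _ _ => (0 : ℤ)) l l' e) : Ho G S l l' := by
  induction h with
  | refl l => exact ho_refl l
  | step s _ ih =>
    refine ho_trans a_homA ?_ ih
    have one : ∀ {m m' : List V}, Stp G S (fun _ _ _ => (0 : ZMod 2)) m m' 0 → Ho G S m m' := by
      intro m m' hs
      have := Hom.step hs (Hom.refl m')
      rwa [add_zero] at this
    cases s with
    | ins u v x y hxy hy => exact one (Stp.ins u v x y hxy hy)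
    | del u v x y hxy => exact one (Stp.del u v x y hxy)
    | exp u v x y z h1 h2 h3 hy => exact one (Stp.exp u v x y z h1 h2 h3 hy)
    | con u v x y z h1 h2 h3 => exact one (Stp.con u v x y z h1 h2 h3)

theorem pw_forall {g : Γ} {l : List V} {x : V} {P : V → Prop} (hl : ∀ v ∈ l, P v) (hx : P x)
    (hg : ∀ v, P v → P (g • v)) (n : ℕ) : ∀ v ∈ pw g l x n, P v := by
  have hk : ∀ (k : ℕ) v, P v → P (g ^ k • v) := by
    intro k
    induction k with
    | zero => intro v hv; simpa using hv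
    | succ k ih =>
      intro v hv
      rw [pow_succ', mul_smul]
      exact hg _ (ih v hv)
  intro v hv
  rcases mem_pw hv with rfl | ⟨k, -, u, hu, rfl⟩
  · exact hx
  · exact hk k u (hl u hu)

theorem nr_smul (hadj : ∀ (g : Γ) x y, G.Adj (g • x) (g • y) ↔ G.Adj x y) (g : Γ) (x y : V) :
    Nr G (g • x) y ↔ Nr G x (g⁻¹ • y) := by
  unfold Nr
  constructor
  · rintro (h | h)
    · left
      rw [← h, inv_smul_smul]
    · right
      rw [← hadj g, smul_inv_smul]
      exact h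
  · rintro (h | h)
    · left
      rw [h, smul_inv_smul]
    · right
      rw [← hadj g, smul_inv_smul] at h
      exact h

theorem nr_finite (hloc : ∀ x, {y | G.Adj x y}.Finite) {U : Set V} (hU : U.Finite) :
    {v | ∃ c ∈ U, Nr G c v}.Finite := by
  have : {v | ∃ c ∈ U, Nr G c v} ⊆ ⋃ n ∈ U, ({n} ∪ {y | G.Adj n y}) := by
    rintro y ⟨n, hn, h⟩
    simp only [Set.mem_iUnion]
    refine ⟨n, hn, ?_⟩
    rcases h with h | h
    · exact Or.inl h.symm
    · exact Or.inr h
  exact Set.Finite.subset (Set.Finite.biUnion hU (fun n _ =>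
    (Set.finite_singleton n).union (hloc n))) this

theorem pow_L {a : Γ} {L : Set V} (hL : ∀ v, a • v ∈ L ↔ v ∈ L) (k : ℕ) (v : V) :
    a ^ k • v ∈ L ↔ v ∈ L := by
  induction k with
  | zero => simp
  | succ k ih => rw [pow_succ', mul_smul, hL, ih]

theorem Wall.pow {a : Γ} {L : Set V} (hL : ∀ v, a • v ∈ L ↔ v ∈ L) {χ : V → ZMod 2} {h : V → ℤ}
    {Zn : Set V} {H : ℤ} (W : Wall G L a χ h Zn H) (k : ℕ) {v : V} (hv : v ∈ L) :
    (a ^ k • v ∈ Zn ↔ v ∈ Zn) ∧ (v ∈ Zn → h (a ^ k • v) = h v + k) := by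
  induction k with
  | zero => simp
  | succ k ih =>
    have hk := (pow_L hL k v).2 hv
    rw [pow_succ', mul_smul]
    refine ⟨(W.inv _ hk).trans ih.1, fun hz => ?_⟩
    rw [W.ha _ hk (ih.1.2 hz), ih.2 hz]
    push_cast
    ring

/-- The wall theorem. -/
theorem wall_thm {X : Cx V} (hMS : X.IsMS) (hG : X.IsGeom Γ) {C : ℕ} (hC : CoarseHyp X.G C)
    {a g : Γ} (hga : g * a = a * g) (hF : FreeAut X (MulAction.toPerm a)) {L : Set V}
    (hL : ∀ v, a • v ∈ L ↔ v ∈ L) {x : V} {w σ : List V} (hw : IsW X.G x (g • x) w)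
    (hσ : IsW X.G x (a • x) σ) (wL : ∀ v ∈ w, v ∈ L) (σL : ∀ v ∈ σ, v ∈ L ∧ g • v ∈ L)
    (tile : Tile X.G L g a w σ) {ι : Type} (I : Finset ι) (χ : ι → V → ZMod 2) (h : ι → V → ℤ)
    (Zn : ι → Set V) {H : ℤ} (W : ∀ i ∈ I, Wall X.G L a (χ i) (h i) (Zn i) H)
    (χσ : ∀ i ∈ I, ∀ v ∈ σ, χ i v = 0 ∧ χ i (g • v) = 1) (B : ℕ)
    (hB : ∀ c : V, ∃ T : Finset (ι × ℤ), T.card ≤ B ∧ ∀ i ∈ I, ∀ p : ℤ, ∀ y ∈ L, y ∈ Zn i →
      Nr X.G c y → |h i y - p| ≤ H → (i, p) ∈ T) (m : ℕ) {α : List V}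
    (hα : IsW X.G x (g • x) α) :
    I.card * m ≤ B * (C * (2 * (α.length + m * (σ.length - 1))) ^ 2) := by
  have hadj := hG.adj
  -- the filling of the tile
  obtain ⟨s₀, hs₀⟩ : ∃ s₀ : List V, s₀ = pw a σ x m := ⟨_, rfl⟩
  have ws₀ : IsW X.G x (a ^ m • x) s₀ := by rw [hs₀]; exact isW_pw hadj hσ m
  have hgam : g * a ^ m = a ^ m * g := ((show Commute g a from hga).pow_right m).eq
  have wP : IsW X.G x (g • (a ^ m • x)) (cat α (tr g s₀)) := isW_cat hα (isW_tr hadj g ws₀)
  have wQ : IsW X.G x (g • (a ^ m • x)) (cat s₀ (tr (a ^ m) α)) := by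
    rw [← mul_smul, hgam, mul_smul]
    exact isW_cat ws₀ (isW_tr hadj _ hα)
  obtain ⟨F₀, hF₀⟩ := hC.geo _ _ _ _ wP wQ
  have αne : 1 ≤ α.length := by
    obtain ⟨α0, hα0⟩ := isW_cons hα
    rw [hα0]; simp
  have card₀ : F₀.card ≤ C * (2 * (α.length + m * (σ.length - 1))) ^ 2 := by
    refine hF₀.card.trans (le_of_eq ?_)
    rw [length_cat, length_cat, length_tr, length_tr, hs₀, length_pw]
    congr 2
    omega
  have tile₀ : Tile X.G (F₀ : Set V) g (a ^ m) α s₀ := ho_of_homA hF₀.hom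
  have αF₀ : ∀ v ∈ α, v ∈ F₀ := by
    intro v hv
    refine hF₀.mem v (List.mem_append_left _ ?_)
    unfold cat
    exact List.mem_append_left _ hv
  have sF₀ : ∀ v ∈ s₀, g • v ∈ F₀ := by
    intro v hv
    refine hF₀.mem _ (List.mem_append_left _ ?_)
    rw [cat_eq hα (isW_tr hadj g ws₀)]
    exact List.mem_append_right _ (mem_tr.2 ⟨v, hv, rfl⟩)
  -- the homotopy from `α` to `w`
  obtain ⟨U, hU⟩ := hC.geo _ _ _ _ hα hw
  have αU : ∀ v ∈ α, v ∈ (U : Set V) := fun v hv => hU.mem v (List.mem_append_left _ hv)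
  have wU : ∀ v ∈ w, v ∈ (U : Set V) := fun v hv => hU.mem v (List.mem_append_right _ hv)
  have hoU : Ho X.G (U : Set V) α w := ho_of_homA hU.hom
  -- the bound on the heights near `U`
  have hfin := nr_finite hG.locfin (U.finite_toSet)
  obtain ⟨R, hR⟩ : ∃ R : ℕ, ∀ i ∈ I, ∀ v, (∃ c ∈ (U : Set V), Nr X.G c v) →
      |h i v| ≤ R := by
    have hf2 : ((fun q : ι × V => |h q.1 q.2|) '' ((I : Set ι) ×ˢ
        {v | ∃ c ∈ (U : Set V), Nr X.G c v})).Finite :=
      (I.finite_toSet.prod hfin).image _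
    obtain ⟨R, hR⟩ := hf2.bddAbove
    refine ⟨R.toNat, ?_⟩
    intro i hi v hv
    have h1 : |h i v| ≤ R := hR ⟨(i, v), ⟨hi, hv⟩, rfl⟩
    exact h1.trans (Int.self_le_toNat R)
  -- the estimate for all `N`
  have main : ∀ N : ℕ, I.card * (m * N) ≤
      (N + 1) * F₀.card * B + I.card * (2 * R + 2 * H.natAbs + 1) := by
    intro N
    obtain ⟨s, hs⟩ : ∃ s : List V, s = pw (a ^ m) s₀ x N := ⟨_, rfl⟩
    obtain ⟨b, hb⟩ : ∃ b : Γ, b = (a ^ m) ^ N := ⟨_, rfl⟩
    have hb' : b = a ^ (m * N) := by rw [hb, pow_mul]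
    have ws : IsW X.G x (b • x) s := by rw [hs, hb]; exact isW_pw hadj ws₀ N
    have hgb : g * b = b * g := by
      rw [hb']
      exact ((show Commute g a from hga).pow_right _).eq
    -- the finite set `F`
    obtain ⟨F, hFdef⟩ : ∃ F : Finset V, F = (Finset.range (N + 1) ×ˢ F₀).image
        (fun q => (a ^ m) ^ q.1 • q.2) := ⟨_, rfl⟩
    have Fcard : F.card ≤ (N + 1) * F₀.card := by
      rw [hFdef]
      refine Finset.card_image_le.trans (le_of_eq ?_)
      rw [Finset.card_product, Finset.card_range]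
    have memF : ∀ k < N + 1, ∀ y ∈ F₀, (a ^ m) ^ k • y ∈ F := by
      intro k hk y hy
      rw [hFdef]
      exact Finset.mem_image.2 ⟨(k, y), Finset.mem_product.2 ⟨Finset.mem_range.2 hk, hy⟩, rfl⟩
    have tileF : Tile X.G (F : Set V) g b α s := by
      rw [hs, hb]
      exact tile₀.stack hadj hgam hα ws₀ N (fun k hk y hy => memF k (by omega) y hy)
    have PF : ∀ v ∈ cat α (tr g s), v ∈ (F : Set V) := by
      intro v hv
      rcases mem_cat hv with hv | hv
      · have := memF 0 (by omega) v (αF₀ v hv)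
        simpa using this
      · obtain ⟨u, hu, rfl⟩ := mem_tr.1 hv
        rw [hs] at hu
        have xs₀ : x ∈ s₀ := by
          obtain ⟨s1, hs1⟩ := isW_cons ws₀
          rw [hs1]; simp
        rcases mem_pw hu with rfl | ⟨k, hk, u', hu', rfl⟩
        · have := memF 0 (by omega) _ (sF₀ _ xs₀)
          simpa using this
        · have := memF k (by omega) _ (sF₀ _ hu')
          rw [← mul_smul] at this ⊢
          have e : g * (a ^ m) ^ k = (a ^ m) ^ k * g :=
            ((show Commute g (a ^ m) from hgam).pow_right _).eq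
          rw [e]
          exact this
    -- the side `s`
    have sL : ∀ i ∈ I, ∀ v ∈ s, v ∈ L ∧ g • v ∈ L ∧ χ i v = 0 ∧ χ i (g • v) = 1 := by
      intro i hi
      have Wi := W i hi
      have st1 : ∀ v, (v ∈ L ∧ g • v ∈ L ∧ χ i v = 0 ∧ χ i (g • v) = 1) →
          (a • v ∈ L ∧ g • (a • v) ∈ L ∧ χ i (a • v) = 0 ∧ χ i (g • (a • v)) = 1) := by
        rintro v ⟨h1, h2, h3, h4⟩
        rw [← mul_smul, hga, mul_smul]
        exact ⟨(hL v).2 h1, (hL _).2 h2, by rw [Wi.chi v h1, h3], by rw [Wi.chi _ h2, h4]⟩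
      have stk : ∀ (k : ℕ) v, (v ∈ L ∧ g • v ∈ L ∧ χ i v = 0 ∧ χ i (g • v) = 1) →
          (a ^ k • v ∈ L ∧ g • (a ^ k • v) ∈ L ∧ χ i (a ^ k • v) = 0 ∧
            χ i (g • (a ^ k • v)) = 1) := by
        intro k
        induction k with
        | zero => intro v hv; simpa using hv
        | succ k ih =>
          intro v hv
          rw [pow_succ', mul_smul]
          exact st1 _ (ih v hv)
      have xσ : x ∈ σ := by
        obtain ⟨s1, hs1⟩ := isW_cons hσ
        rw [hs1]; simp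
      have base : ∀ v ∈ σ, v ∈ L ∧ g • v ∈ L ∧ χ i v = 0 ∧ χ i (g • v) = 1 := fun v hv =>
        ⟨(σL v hv).1, (σL v hv).2, (χσ i hi v hv).1, (χσ i hi v hv).2⟩
      rw [hs, hs₀]
      exact pw_forall (pw_forall base (base x xσ) st1 m) (base x xσ) (stk m) N
    have tileL : Tile X.G L g b w s := by
      rw [hs, hb, hs₀]
      refine Tile.stack hadj hgam hw (isW_pw hadj hσ m) (Y := L) ?_ N
        (fun k _ y hy => by rw [← pow_mul]; exact (pow_L hL _ y).2 hy)
      exact tile.stack hadj hga hw hσ m (fun k _ y hy => (pow_L hL _ y).2 hy)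
    -- the region
    obtain ⟨K, hK⟩ : ∃ K : ℤ, K = R + H.natAbs := ⟨_, rfl⟩
    have cover : (I ×ˢ Finset.Ioo K ((m * N : ℕ) - K)) ⊆
        F.biUnion (fun c => (hB c).choose) := by
      rintro ⟨i, p⟩ hip
      rw [Finset.mem_product, Finset.mem_Ioo] at hip
      obtain ⟨hi, hp1, hp2⟩ := hip
      simp only at hi hp1 hp2
      by_contra hbad
      have hnot : ∀ c ∈ F, ∀ y ∈ L, y ∈ Zn i → Nr X.G c y → H < |h i y - p| := by
        intro c hc y hy hyz hcy
        by_contra hle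
        exact hbad (Finset.mem_biUnion.2 ⟨c, hc, (hB c).choose_spec.2 i hi p y hy hyz hcy
          (not_lt.1 hle)⟩)
      have Wi := W i hi
      have hHn : H ≤ H.natAbs := Int.le_natAbs
      have hbL : ∀ v, b • v ∈ L ↔ v ∈ L := by
        intro v
        rw [hb']
        exact pow_L hL _ v
      have hbh : ∀ v ∈ L, (b • v ∈ Zn i ↔ v ∈ Zn i) ∧
          (v ∈ Zn i → h i (b • v) = h i v + (m * N : ℕ)) := by
        intro v hv
        rw [hb']
        exact Wi.pow hL _ hv
      refine wall_one (L := L) (Q := (F : Set V) ∪ (U : Set V) ∪ {v | ∃ u ∈ (U : Set V), b • u = v})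
        (F := (F : Set V)) (U := (U : Set V)) (t := MulAction.toPerm a) (p := p)
        hMS.metric hMS.large hF hadj Wi ?_ hgb hα hw ws αU hoU ?_ ?_ ?_ PF tileF wL
        (fun v hv => (hbL v).2 (wL v hv)) (sL i hi) tileL ?_ ?_
      · intro c hc y hy hyz hcy
        rcases hc with (hc | hc) | ⟨u, hu, rfl⟩
        · exact hnot c hc y hy hyz hcy
        · have h1 := abs_le.1 (hR i hi y ⟨c, hc, hcy⟩)
          rw [lt_abs]
          right
          omega
        · rw [nr_smul hadj] at hcy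
          obtain ⟨y', hy'⟩ : ∃ y', y' = b⁻¹ • y := ⟨_, rfl⟩
          have hyy : y = b • y' := by rw [hy', smul_inv_smul]
          rw [← hy'] at hcy
          rw [hyy] at hy hyz ⊢
          have hy'L := (hbL y').1 hy
          have h1 := abs_le.1 (hR i hi y' ⟨u, hu, hcy⟩)
          rw [(hbh y' hy'L).2 ((hbh y' hy'L).1.1 hyz), lt_abs]
          left
          omega
      · exact fun v hv => Or.inl (Or.inr hv)
      · exact fun v hv => Or.inr ⟨v, hv, rfl⟩
      · exact fun v hv => Or.inl (Or.inl hv)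
      · intro v hv _
        have h1 := abs_le.1 (hR i hi v ⟨v, wU v hv, Or.inl rfl⟩)
        omega
      · intro v hv hvz
        have h1 := abs_le.1 (hR i hi v ⟨v, wU v hv, Or.inl rfl⟩)
        rw [(hbh v (wL v hv)).2 ((hbh v (wL v hv)).1.1 hvz)]
        omega
    have hcount := Finset.card_le_card cover
    rw [Finset.card_product, Int.card_Ioo] at hcount
    have h2 : (F.biUnion (fun c => (hB c).choose)).card ≤ F.card * B :=
      Finset.card_biUnion_le_card_mul _ _ _ (fun c _ => (hB c).choose_spec.1)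
    have h3 : F.card * B ≤ (N + 1) * F₀.card * B := Nat.mul_le_mul_right _ Fcard
    have h4 : m * N ≤ (((m * N : ℕ) : ℤ) - K - K - 1).toNat + (2 * R + 2 * H.natAbs + 1) := by
      omega
    calc I.card * (m * N) ≤ I.card * ((((m * N : ℕ) : ℤ) - K - K - 1).toNat +
          (2 * R + 2 * H.natAbs + 1)) := Nat.mul_le_mul_left _ h4
      _ = I.card * (((m * N : ℕ) : ℤ) - K - K - 1).toNat +
          I.card * (2 * R + 2 * H.natAbs + 1) := by ring
      _ ≤ (N + 1) * F₀.card * B + I.card * (2 * R + 2 * H.natAbs + 1) := by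
          have := hcount.trans (h2.trans h3)
          omega
  -- the limit
  have lim : I.card * m ≤ F₀.card * B := by
    by_contra hlt
    rw [not_le] at hlt
    have h1 := main (F₀.card * B + I.card * (2 * R + 2 * H.natAbs + 1) + 1)
    obtain ⟨N, hN⟩ : ∃ N : ℕ, N = F₀.card * B + I.card * (2 * R + 2 * H.natAbs + 1) + 1 := ⟨_, rfl⟩
    rw [← hN] at h1
    have h2 : (F₀.card * B + 1) * N ≤ I.card * m * N := Nat.mul_le_mul_right _ hlt
    have h3 : I.card * (m * N) = I.card * m * N := by ring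
    have h4 : (N + 1) * F₀.card * B = F₀.card * B * N + F₀.card * B := by ring
    have h5 : (F₀.card * B + 1) * N = F₀.card * B * N + N := by ring
    omega
  calc I.card * m ≤ F₀.card * B := lim
    _ = B * F₀.card := Nat.mul_comm _ _
    _ ≤ _ := Nat.mul_le_mul_left _ card₀

end MSG.FS
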